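import Mathlib

/-!
# Compatible systems of orthogonal representations in odd dimension: definitions

Here `K` is a number field, `L` is an algebraic closure of `K` and `𝓞 L` is the ring of algebraic
integers.
-/

set_option autoImplicit false

namespace Pool.Agent.OddRank

open NumberField Polynomial

variable {K L : Type} [Field K] [Field L] [Algebra K L]

/-- The place of `K` below the ideal `𝔓` of the ring of algebraic integers. -/
noncomputable def below (K : Type) {L : Type} [Field K] [Field L] [Algebra K L]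
    (𝔓 : Ideal (𝓞 L)) : Ideal (𝓞 K) :=
  𝔓.comap (algebraMap (𝓞 K) (𝓞 L))

/-- The element `σ` of the Galois group induces `x ↦ x ^ n` modulo `𝔓`. For `n = 1` these are the
elements of the inertia group of `𝔓`. -/
def Induces (𝔓 : Ideal (𝓞 L)) (n : ℕ) (σ : L ≃ₐ[K] L) : Prop :=
  ∀ x y : 𝓞 L, (y : L) = σ x → y - x ^ n ∈ 𝔓

/-- The representations `ρ ℓ` of the Galois group of `K` over `ℂ_[ℓ]`, for all prime numbers `ℓ`, are
a compatible system of orthogonal representations with rational traces. They are continuous and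
preserve nondegenerate symmetric forms; for all `ℓ` and `p` and almost all primes `q` the
characteristic polynomials of `ρ ℓ (σ⁻¹)` and `ρ p (σ⁻¹)` are the same polynomial with rational
coefficients, for all `σ` that induce `x ↦ x ^ q` modulo a prime ideal above `q`; the inertia groups
of all places not above `ℓ` and outside the finite set `B₀` act unipotently by `ρ ℓ`. -/
structure System (B₀ : Finset (Ideal (𝓞 K))) {m : ℕ}
    (ρ : ∀ (ℓ : ℕ) [Fact ℓ.Prime], (L ≃ₐ[K] L) →* Matrix (Fin m) (Fin m) ℂ_[ℓ]) : Prop where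
  continuous : ∀ (ℓ : ℕ) [Fact ℓ.Prime], Continuous (ρ ℓ)
  orthogonal : ∀ (ℓ : ℕ) [Fact ℓ.Prime], ∃ J : Matrix (Fin m) (Fin m) ℂ_[ℓ],
    J.transpose = J ∧ J.det ≠ 0 ∧ ∀ σ, (ρ ℓ σ).transpose * J * ρ ℓ σ = J
  compatible : ∀ (ℓ p : ℕ) [Fact ℓ.Prime] [Fact p.Prime], ∃ B : Finset ℕ, ∀ q : ℕ, q.Prime → q ∉ B →
    ∀ 𝔓 : Ideal (𝓞 L), 𝔓.IsPrime → (q : 𝓞 L) ∈ 𝔓 → ∀ σ, Induces 𝔓 q σ →
      ∃ P : ℚ[X], (ρ ℓ σ⁻¹).charpoly = P.map (algebraMap ℚ ℂ_[ℓ]) ∧
        (ρ p σ⁻¹).charpoly = P.map (algebraMap ℚ ℂ_[p])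
  unipotent : ∀ (ℓ : ℕ) [Fact ℓ.Prime] (𝔓 : Ideal (𝓞 L)), 𝔓.IsMaximal → (ℓ : 𝓞 L) ∉ 𝔓 →
    below K 𝔓 ∉ B₀ → ∀ τ, Induces 𝔓 1 τ → (ρ ℓ τ - 1) ^ m = 0

open Classical in
/-- The number of the roots of `P` that are roots of unity, with multiplicity, in the field `k`. -/
noncomputable def unityRoots {k : Type} [Field k] (P : k[X]) : ℕ :=
  (P.roots.filter fun a => ∃ n : ℕ, 0 < n ∧ a ^ n = 1).card

/-- The homomorphism `η` to the group `{1, -1}` is continuous (a quadratic character of the Galois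
group, or trivial) and unramified outside `B₀`. -/
def IsQuadratic (B₀ : Finset (Ideal (𝓞 K))) (η : (L ≃ₐ[K] L) →* ℤˣ) : Prop :=
  IsOpen (η.ker : Set (L ≃ₐ[K] L)) ∧
    ∀ 𝔓 : Ideal (𝓞 L), 𝔓.IsMaximal → below K 𝔓 ∉ B₀ → ∀ τ, Induces 𝔓 1 τ → η τ = 1

/-- The maximal ideal `𝔓` is a node of `ρ`: the inertia group acts through the identity and one
reflection `ρ(s)` (`ρ(s) - 1` has rank `1` and `ρ(s)` has the determinant `-1`), with the vanishing
cycle `e`, `ρ(s) e = -e`. The character `η` is unramified at `𝔓`, and for a Frobenius element `φ` at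
`𝔓` its sign `η(φ)` is `-d`, where `d` is the determinant of `ρ(φ⁻¹)` times its eigenvalue on `e`.
(As this eigenvalue is `1` or `-1` in an orthogonal representation, `d` is the determinant of
`ρ(φ⁻¹)` on the invariants of the inertia group.) -/
def NodeWithSign {k : Type} [Field k] {m : ℕ} (ρ : (L ≃ₐ[K] L) →* Matrix (Fin m) (Fin m) k)
    (η : (L ≃ₐ[K] L) →* ℤˣ) (𝔓 : Ideal (𝓞 L)) : Prop :=
  ∃ (s φ : L ≃ₐ[K] L) (e : Fin m → k), Induces 𝔓 1 s ∧ (ρ s - 1).rank = 1 ∧ (ρ s).det = -1 ∧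
    (∀ τ, Induces 𝔓 1 τ → (ρ τ = 1 ∨ ρ τ = ρ s) ∧ η τ = 1) ∧ e ≠ 0 ∧ (ρ s).mulVec e = -e ∧
    Induces 𝔓 (Nat.card (𝓞 K ⧸ below K 𝔓)) φ ∧
    (ρ φ⁻¹).det • (ρ φ⁻¹).mulVec e = -((η φ : ℤ) : k) • e

/-- No open subgroup `H` acts trivially on a nonzero subquotient `W₂ / W₁` of `ρ`. -/
def NoTateClasses {G k : Type} [Group G] [TopologicalSpace G] [Field k] {m : ℕ}
    (ρ : G →* Matrix (Fin m) (Fin m) k) : Prop :=
  ∀ H : Subgroup G, IsOpen (H : Set G) → ∀ W₁ W₂ : Submodule k (Fin m → k), W₁ ≤ W₂ →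
    (∀ σ ∈ H, ∀ x ∈ W₂, (ρ σ).mulVec x - x ∈ W₁) → W₁ = W₂

end Pool.Agent.OddRank
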